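import Pool.Agent.Y942.MB.Base

/-!
# MP_540c93_co: every characterisation of `i`-graphs by forbidden induced subgraphs is infinite, with
# members of all sizes up to a factor two inside the Möbius ladders

Let `F` be any set of finite graphs, finite or infinite, such that a (nonempty, finite) graph is an
`i`-graph if and only if it has no induced subgraph isomorphic to a member of `F`. Then for every
`n ≥ 4` the set `F` has a member `P` with at least `n` and at most `2n` vertices which is isomorphic to
an induced subgraph of the Möbius ladder on `2n` vertices meeting all its rungs.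
-/

set_option autoImplicit false

namespace Pool.Agent.Results.MP_540c93_co.EveryForbiddenFamily

open SimpleGraph Pool.Agent.Y942.MB

/-- A set `F` of graphs characterises the `i`-graphs by forbidden induced subgraphs. -/
def Characterises (F : Set (Σ n : ℕ, SimpleGraph (Fin n))) : Prop :=
  ∀ (n : ℕ) (H : SimpleGraph (Fin n)), 0 < n →
    (IsIGraph H ↔ ∀ P ∈ F, ¬ Nonempty (P.2 ↪g H))

/-- Every characterisation `F` of the `i`-graphs by forbidden induced subgraphs contains, for every
`n ≥ 4`, a graph `P` with `n ≤ |P| ≤ 2n` that is not an `i`-graph and embeds as an induced subgraph in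
the Möbius ladder with `n` rungs, the embedding meeting every rung. -/
theorem result : ∀ F : Set (Σ n : ℕ, SimpleGraph (Fin n)), Characterises F →
    ∀ (n : ℕ) (hn : 4 ≤ n), ∃ P ∈ F, n ≤ P.1 ∧ P.1 ≤ 2 * n ∧ ¬ IsIGraph P.2 ∧
      ∃ f : P.2 ↪g mobius n (by omega), ∀ j : Fin n, ∃ x, (f x).1 = j := by
  classical
  intro F hF n hn4
  have hF' : ∀ (W : Type) [Fintype W] [Nonempty W] (H : SimpleGraph W),
      (IsIGraph H ↔ ∀ P ∈ F, ¬ Nonempty (P.2 ↪g H)) := by
    intro W _ _ H
    let e := Fintype.equivFin W
    let H' : SimpleGraph (Fin (Fintype.card W)) := H.comap e.symm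
    have φ : H' ≃g H := SimpleGraph.Iso.comap e.symm H
    have h1 := hF _ H' Fintype.card_pos
    rw [← IsIGraph.congr φ, h1]
    constructor
    · rintro h P hP ⟨f⟩
      exact h P hP ⟨f.trans φ.symm.toEmbedding⟩
    · rintro h P hP ⟨f⟩
      exact h P hP ⟨f.trans φ.toEmbedding⟩
  have hn3 : 3 ≤ n := by omega
  have hne : Nonempty (Fin n × Bool) := ⟨(⟨0, by omega⟩, true)⟩
  have h1 := (hF' (Fin n × Bool) (mobius n hn3)).not.1 (mobius_not_iGraph n hn3)
  push Not at h1
  obtain ⟨P, hP, ⟨f⟩⟩ := h1
  have hhit : ∀ j : Fin n, ∃ x, (f x).1 = j := by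
    by_contra hcon
    push Not at hcon
    obtain ⟨j, hj⟩ := hcon
    have hfin : Finite {S // IsISet (seed n) S} := Subtype.finite
    have hfin' : Fintype {S // IsISet (seed n) S} := Fintype.ofFinite _
    have hne' : Nonempty {S // IsISet (seed n) S} := ⟨repV hn4 (⟨0, by omega⟩, true)⟩
    have h3 : IsIGraph (iGraph (seed n)) := ⟨_, inferInstance, seed n, ⟨SimpleGraph.Iso.refl⟩⟩
    refine (hF' _ (iGraph (seed n))).1 h3 P hP ⟨⟨⟨fun x => repV hn4 (Pool.Agent.Y942.MB.flip j (f x)), ?_⟩, ?_⟩⟩
    · intro x y hxy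
      apply f.injective
      have h4 := rep_inj hn4 (congrArg Subtype.val hxy)
      unfold Pool.Agent.Y942.MB.flip at h4
      rw [Prod.mk.injEq] at h4
      obtain ⟨h5, h6⟩ := h4
      rw [h5] at h6
      apply Prod.ext h5
      split_ifs at h6
      · simpa using h6
      · exact h6
    · intro x y
      change (iGraph (seed n)).Adj (repV hn4 (Pool.Agent.Y942.MB.flip j (f x))) (repV hn4 (Pool.Agent.Y942.MB.flip j (f y))) ↔ _
      rw [adj_iff, flip_adj hn4 j _ _ (hj x) (hj y)]
      exact f.map_adj_iff
  have hle : n ≤ P.1 := by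
    have h2 : Fintype.card (Fin n) ≤ Fintype.card (Fin P.1) :=
      Fintype.card_le_of_surjective (fun x => (f x).1) hhit
    rwa [Fintype.card_fin, Fintype.card_fin] at h2
  refine ⟨P, hP, hle, ?_, ?_, f, hhit⟩
  · have h2 := Fintype.card_le_of_injective f f.injective
    rw [Fintype.card_fin, Fintype.card_prod, Fintype.card_fin, Fintype.card_bool] at h2
    omega
  · intro h
    exact (hF P.1 P.2 (by omega)).1 h P hP ⟨SimpleGraph.Embedding.refl⟩

end Pool.Agent.Results.MP_540c93_co.EveryForbiddenFamily
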